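import Mathlib

/-!
# A negative answer: an `E₁`-ring with rationally nontrivial unit and no map to an even ring

`E₁`-rings over `ℤ` are modelled by differential graded rings (dgas), homologically graded, and
`E₁`-maps by morphisms in the homotopy category of dgas (zigzags of dga maps in which the
backward maps are quasi-isomorphisms).

The counterexample is the graded endomorphism ring of the graded vector space `k ⊕ k ⊕ Σk`,
`k = 𝔽₂`, with zero differential.
-/

namespace Pool.Agent.Results.MP_b9a9ca_gt.NoEvenTarget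

open scoped TensorProduct

noncomputable section

/-! ### Definitions -/

/-- The structure of a `ℤ`-graded chain complex on an abelian group `A`: subgroups `gr i`
(`i : ℤ`) of which `A` is the direct sum, and a differential `d` of degree `-1` with `d² = 0`. -/
structure Cx (A : Type) [AddCommGroup A] where
  /-- the homogeneous elements of degree `i` -/
  gr : ℤ → AddSubgroup A
  internal : DirectSum.IsInternal gr
  /-- the differential -/
  d : A →+ A
  d_mem : ∀ {i : ℤ} {x : A}, x ∈ gr i → d x ∈ gr (i - 1)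
  d_d : ∀ x, d (d x) = 0

/-- A chain map (of degree `0`). -/
def IsChainMap {A B : Type} [AddCommGroup A] [AddCommGroup B] (X : Cx A) (Y : Cx B)
    (f : A →+ B) : Prop :=
  (∀ i x, x ∈ X.gr i → f x ∈ Y.gr i) ∧ ∀ x, f (X.d x) = Y.d (f x)

/-- A quasi-isomorphism: a chain map which is bijective on homology `ker d / im d`
(first injectivity, then surjectivity is spelled out). -/
def IsQuasiIso {A B : Type} [AddCommGroup A] [AddCommGroup B] (X : Cx A) (Y : Cx B)
    (f : A →+ B) : Prop :=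
  IsChainMap X Y f ∧
    (∀ a, X.d a = 0 → (∃ b, Y.d b = f a) → ∃ a', X.d a' = a) ∧
    (∀ b, Y.d b = 0 → ∃ a, X.d a = 0 ∧ ∃ b', Y.d b' = b - f a)

/-- A differential graded ring: a `ℤ`-graded associative unital ring with a differential of
degree `-1` satisfying the graded Leibniz rule `d(xy) = (dx)y + (-1)^|x| x(dy)`. -/
structure DGRing : Type 1 where
  /-- the underlying ring (the direct sum of all homogeneous parts) -/
  carrier : Type
  [ring : Ring carrier]
  /-- grading and differential -/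
  cx : Cx carrier
  one_mem : (1 : carrier) ∈ cx.gr 0
  mul_mem : ∀ {i j : ℤ} {x y : carrier}, x ∈ cx.gr i → y ∈ cx.gr j → x * y ∈ cx.gr (i + j)
  leibniz : ∀ {i : ℤ} {x : carrier} (y : carrier), x ∈ cx.gr i →
    cx.d (x * y) = cx.d x * y + i.negOnePow • (x * cx.d y)

attribute [instance] DGRing.ring

/-- A map of differential graded rings. -/
structure DGRing.Hom (R S : DGRing) where
  /-- the underlying ring homomorphism -/
  toRingHom : R.carrier →+* S.carrier
  chain : IsChainMap R.cx S.cx toRingHom.toAddMonoidHom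

/-- `DerivedMap R S`: there is a morphism `R ⟶ S` in the homotopy category of differential graded
rings, the localization at quasi-isomorphisms; that is, `R` and `S` are joined by a zigzag of
maps of differential graded rings in which the backward maps are quasi-isomorphisms. -/
inductive DerivedMap : DGRing → DGRing → Prop
  | forward {R S : DGRing} (f : DGRing.Hom R S) : DerivedMap R S
  | backward {R S : DGRing} (f : DGRing.Hom S R)
      (hf : IsQuasiIso S.cx R.cx f.toRingHom.toAddMonoidHom) : DerivedMap R S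
  | trans {R S T : DGRing} : DerivedMap R S → DerivedMap S T → DerivedMap R T

/-- A differential graded ring is even if its homology vanishes in odd degrees. -/
def DGRing.IsEven (A : DGRing) : Prop :=
  ∀ k : ℤ, Odd k → ∀ x ∈ A.cx.gr k, A.cx.d x = 0 → ∃ y, A.cx.d y = x

/-- A differential graded ring is (quasi-isomorphic to) zero if its homology vanishes. -/
def DGRing.IsAcyclic (A : DGRing) : Prop :=
  ∀ x, A.cx.d x = 0 → ∃ y, A.cx.d y = x

/-- A left differential graded module. -/
structure DGModule (R : DGRing) : Type 1 where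
  /-- the underlying module (the direct sum of all homogeneous parts) -/
  carrier : Type
  [addCommGroup : AddCommGroup carrier]
  [module : Module R.carrier carrier]
  /-- grading and differential -/
  cx : Cx carrier
  smul_mem : ∀ {i j : ℤ} {r : R.carrier} {m : carrier}, r ∈ R.cx.gr i → m ∈ cx.gr j →
    r • m ∈ cx.gr (i + j)
  leibniz : ∀ {i : ℤ} {r : R.carrier} (m : carrier), r ∈ R.cx.gr i →
    cx.d (r • m) = R.cx.d r • m + i.negOnePow • (r • cx.d m)

attribute [instance] DGModule.addCommGroup DGModule.module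

/-- A map of differential graded modules. -/
structure DGModule.Hom {R : DGRing} (M N : DGModule R) where
  /-- the underlying linear map -/
  toLinearMap : M.carrier →ₗ[R.carrier] N.carrier
  chain : IsChainMap M.cx N.cx toLinearMap.toAddMonoidHom

/-- A map of differential graded modules is a quasi-isomorphism if it is bijective on homology. -/
def DGModule.Hom.QuasiIso {R : DGRing} {M N : DGModule R} (f : M.Hom N) : Prop :=
  IsQuasiIso M.cx N.cx f.toLinearMap.toAddMonoidHom

/-- `0 → L → M → N → 0` is a short exact sequence of differential graded modules. -/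
def ShortExact {R : DGRing} {L M N : DGModule R} (f : L.Hom M) (g : M.Hom N) : Prop :=
  Function.Injective f.toLinearMap ∧ Function.Surjective g.toLinearMap ∧
    LinearMap.range f.toLinearMap = LinearMap.ker g.toLinearMap

/-- The ring as a differential graded left module over itself. -/
def DGRing.self (R : DGRing) : DGModule R where
  carrier := R.carrier
  cx := R.cx
  smul_mem := R.mul_mem
  leibniz := R.leibniz

/-- Perfect modules: the thick subcategory of the derived category of differential graded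
`R`-modules generated by `R`, that is, the smallest class of modules that contains `R`, is closed
under quasi-isomorphism, under two-out-of-three in short exact sequences (equivalently, under
shifts, cones and extensions) and under direct summands. -/
inductive Perfect {R : DGRing} : DGModule R → Prop
  | self : Perfect R.self
  | of_qis_left {M N : DGModule R} (f : M.Hom N) (hf : f.QuasiIso) : Perfect M → Perfect N
  | of_qis_right {M N : DGModule R} (f : M.Hom N) (hf : f.QuasiIso) : Perfect N → Perfect M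
  | ses_left {L M N : DGModule R} (f : L.Hom M) (g : M.Hom N) (h : ShortExact f g) :
      Perfect M → Perfect N → Perfect L
  | ses_mid {L M N : DGModule R} (f : L.Hom M) (g : M.Hom N) (h : ShortExact f g) :
      Perfect L → Perfect N → Perfect M
  | ses_right {L M N : DGModule R} (f : L.Hom M) (g : M.Hom N) (h : ShortExact f g) :
      Perfect L → Perfect M → Perfect N
  | summand {M N : DGModule R} (i : M.Hom N) (r : N.Hom M)
      (h : ∀ x, r.toLinearMap (i.toLinearMap x) = x) : Perfect N → Perfect M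

/-- The type of perfect modules. -/
def Perf (R : DGRing) : Type 1 := {M : DGModule R // Perfect M}

/-- The relations of `K₀(R)`: quasi-isomorphic perfect modules are identified, and
`[M] = [L] + [N]` for each short exact sequence `0 → L → M → N → 0` of perfect modules. -/
def relations (R : DGRing) : Set (FreeAbelianGroup (Perf R)) :=
  {x | ∃ (M N : Perf R) (f : M.1.Hom N.1), f.QuasiIso ∧
      x = FreeAbelianGroup.of M - FreeAbelianGroup.of N} ∪
  {x | ∃ (L M N : Perf R) (f : L.1.Hom M.1) (g : M.1.Hom N.1), ShortExact f g ∧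
      x = FreeAbelianGroup.of M - FreeAbelianGroup.of L - FreeAbelianGroup.of N}

/-- `K₀(R)`, the Grothendieck group of the triangulated category of perfect `R`-modules. -/
abbrev KZero (R : DGRing) : Type 1 :=
  FreeAbelianGroup (Perf R) ⧸ AddSubgroup.closure (relations R)

/-- The class `[R]` of the free module of rank one in `K₀(R)`. -/
def unitClass (R : DGRing) : KZero R :=
  QuotientAddGroup.mk (FreeAbelianGroup.of (⟨R.self, Perfect.self⟩ : Perf R))

/-! ### Projections to parts of a graded group -/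

section parts

variable {A B : Type} [AddCommGroup A] [AddCommGroup B]

/-- the direct sum decomposition -/
def Cx.equiv (X : Cx A) : (DirectSum ℤ fun i => X.gr i) ≃+ A :=
  AddEquiv.ofBijective (DirectSum.coeAddMonoidHom X.gr) X.internal

lemma Cx.ext_hom (X : Cx A) {φ ψ : A →+ B} (h : ∀ i, ∀ x ∈ X.gr i, φ x = ψ x) : φ = ψ := by
  have : φ.comp X.equiv.toAddMonoidHom = ψ.comp X.equiv.toAddMonoidHom := by
    apply DirectSum.addHom_ext
    intro i y
    have e : X.equiv (DirectSum.of (fun i => X.gr i) i y) = (y : A) :=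
      DirectSum.coeAddMonoidHom_of _ _ _
    change φ (X.equiv _) = ψ (X.equiv _)
    rw [e]
    exact h i _ y.2
  ext a
  obtain ⟨b, rfl⟩ := X.equiv.surjective a
  exact DFunLike.congr_fun this b

open Classical in
/-- the projection to the part of degrees in `P` -/
def Cx.pr (X : Cx A) (P : ℤ → Prop) : A →+ A :=
  (DirectSum.toAddMonoid fun i => if P i then (X.gr i).subtype else 0).comp
    X.equiv.symm.toAddMonoidHom

lemma Cx.pr_mem (X : Cx A) {P : ℤ → Prop} {i : ℤ} (hi : P i) {x : A} (hx : x ∈ X.gr i) :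
    X.pr P x = x := by
  have e : X.equiv.symm x = DirectSum.of (fun i => X.gr i) i ⟨x, hx⟩ := by
    rw [AddEquiv.symm_apply_eq]
    exact (DirectSum.coeAddMonoidHom_of X.gr i ⟨x, hx⟩).symm
  simp [Cx.pr, e, hi]

lemma Cx.pr_not_mem (X : Cx A) {P : ℤ → Prop} {i : ℤ} (hi : ¬ P i) {x : A} (hx : x ∈ X.gr i) :
    X.pr P x = 0 := by
  have e : X.equiv.symm x = DirectSum.of (fun i => X.gr i) i ⟨x, hx⟩ := by
    rw [AddEquiv.symm_apply_eq]
    exact (DirectSum.coeAddMonoidHom_of X.gr i ⟨x, hx⟩).symm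
  simp [Cx.pr, e, hi]

/-- compatibility of projections with graded maps -/
lemma Cx.pr_map (X : Cx A) (Y : Cx B) (φ : A →+ B) (δ : ℤ)
    (hφ : ∀ i, ∀ x ∈ X.gr i, φ x ∈ Y.gr (i + δ)) {P Q : ℤ → Prop} (hPQ : ∀ i, Q (i + δ) ↔ P i)
    (a : A) : Y.pr Q (φ a) = φ (X.pr P a) := by
  have : (Y.pr Q).comp φ = φ.comp (X.pr P) := by
    apply X.ext_hom
    intro i x hx
    simp only [AddMonoidHom.coe_comp, Function.comp_apply]
    by_cases h : P i
    · rw [X.pr_mem h hx, Y.pr_mem ((hPQ i).2 h) (hφ i x hx)]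
    · rw [X.pr_not_mem h hx, Y.pr_not_mem (fun h' => h ((hPQ i).1 h')) (hφ i x hx), map_zero]
  exact DFunLike.congr_fun this a

lemma Cx.pr_pr (X : Cx A) (P : ℤ → Prop) (a : A) : X.pr P (X.pr P a) = X.pr P a := by
  have : (X.pr P).comp (X.pr P) = X.pr P := by
    apply X.ext_hom
    intro i x hx
    simp only [AddMonoidHom.coe_comp, Function.comp_apply]
    by_cases h : P i
    · rw [X.pr_mem h hx, X.pr_mem h hx]
    · rw [X.pr_not_mem h hx, map_zero]
  exact DFunLike.congr_fun this a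

lemma Cx.pr_single_mem (X : Cx A) (i : ℤ) (a : A) : X.pr (fun j => j = i) a ∈ X.gr i := by
  have key : ((QuotientAddGroup.mk' (X.gr i)).comp (X.pr (fun j => j = i))) = 0 := by
    apply X.ext_hom
    intro j x hx
    simp only [AddMonoidHom.coe_comp, Function.comp_apply, AddMonoidHom.zero_apply]
    by_cases h : j = i
    · rw [X.pr_mem (P := fun j => j = i) h hx]
      subst h
      exact (QuotientAddGroup.eq_zero_iff x).2 hx
    · rw [X.pr_not_mem (P := fun j => j = i) h hx, map_zero]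
  exact (QuotientAddGroup.eq_zero_iff _).1 (DFunLike.congr_fun key a)

lemma Cx.pr_add_compl (X : Cx A) (P : ℤ → Prop) (a : A) :
    X.pr P a + X.pr (fun i => ¬ P i) a = a := by
  have : X.pr P + X.pr (fun i => ¬ P i) = AddMonoidHom.id A := by
    apply X.ext_hom
    intro i x hx
    simp only [AddMonoidHom.add_apply, AddMonoidHom.id_apply]
    by_cases h : P i
    · rw [X.pr_mem h hx, X.pr_not_mem (P := fun i => ¬ P i) (not_not.2 h) hx, add_zero]
    · rw [X.pr_not_mem h hx, X.pr_mem (P := fun i => ¬ P i) h hx, zero_add]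
  exact DFunLike.congr_fun this a

/-- the part of degrees in `P` -/
def Cx.part (X : Cx A) (P : ℤ → Prop) : AddSubgroup A where
  carrier := {a | X.pr P a = a}
  zero_mem' := map_zero _
  add_mem' := fun {a b} (ha : _ = _) (hb : _ = _) => by
    change _ = _
    rw [map_add, ha, hb]
  neg_mem' := fun {a} (ha : _ = _) => by
    change _ = _
    rw [map_neg, ha]

lemma Cx.mem_part (X : Cx A) {P : ℤ → Prop} {a : A} : a ∈ X.part P ↔ X.pr P a = a := Iff.rfl

end parts

/-! ### Counting in short exact sequences -/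

section count

variable {A' A A'' : Type} [AddCommGroup A'] [AddCommGroup A] [AddCommGroup A'']

/-- a short exact sequence of two-periodic complexes `(S, T)` -/
structure Seq6 (d' : A' →+ A') (d : A →+ A) (d'' : A'' →+ A'') (f : A' →+ A) (g : A →+ A'')
    (S' T' : AddSubgroup A') (S T : AddSubgroup A) (S'' T'' : AddSubgroup A'') : Prop where
  inj : Function.Injective f
  gf : ∀ x, g (f x) = 0
  ex : ∀ y, g y = 0 → ∃ x, f x = y
  dd' : ∀ x, d' (d' x) = 0
  dd : ∀ x, d (d x) = 0
  dd'' : ∀ x, d'' (d'' x) = 0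
  fd : ∀ x, f (d' x) = d (f x)
  gd : ∀ x, g (d x) = d'' (g x)
  dST : ∀ x ∈ S, d x ∈ T
  dTS : ∀ x ∈ T, d x ∈ S
  dST' : ∀ x ∈ S', d' x ∈ T'
  dTS' : ∀ x ∈ T', d' x ∈ S'
  fS : ∀ x ∈ S', f x ∈ S
  fT : ∀ x ∈ T', f x ∈ T
  fS' : ∀ x, f x ∈ S → x ∈ S'
  fT' : ∀ x, f x ∈ T → x ∈ T'
  gS : ∀ x ∈ S, g x ∈ S''
  gT : ∀ x ∈ T, g x ∈ T''
  gS' : ∀ y ∈ S'', ∃ x ∈ S, g x = y
  gT' : ∀ y ∈ T'', ∃ x ∈ T, g x = y

variable {d' : A' →+ A'} {d : A →+ A} {d'' : A'' →+ A''} {f : A' →+ A} {g : A →+ A''}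
  {S' T' : AddSubgroup A'} {S T : AddSubgroup A} {S'' T'' : AddSubgroup A''}

/-- the same sequence with the two parts exchanged -/
lemma Seq6.swap (h : Seq6 d' d d'' f g S' T' S T S'' T'') :
    Seq6 d' d d'' f g T' S' T S T'' S'' :=
  ⟨h.inj, h.gf, h.ex, h.dd', h.dd, h.dd'', h.fd, h.gd, h.dTS, h.dST, h.dTS', h.dST', h.fT, h.fS,
    h.fT', h.fS', h.gT, h.gS, h.gT', h.gS'⟩

/-- the order of the homology `(S ∩ ker d) / d(T)`, with value `0` if it is infinite -/
def hh (d : A →+ A) (S T : AddSubgroup A) : ℕ := (T.map d).relIndex (S ⊓ d.ker)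

/-- the order of the image of the connecting homomorphism out of the `S` part -/
def rr (d : A →+ A) (f : A' →+ A) (S' : AddSubgroup A') (S : AddSubgroup A) : ℕ :=
  ((S ⊓ d.ker) ⊔ S'.map f).relIndex (S ⊓ f.range.comap d)

/-- the order of the kernel of `H(A) → H(A'')` on the `S` part -/
def tt (d : A →+ A) (f : A' →+ A) (S' : AddSubgroup A') (S T : AddSubgroup A) : ℕ :=
  (T.map d).relIndex ((S ⊓ d.ker) ⊓ (T.map d ⊔ S'.map f))

/-- the order of the image of `H(A) → H(A'')` on the `S` part -/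
def ss (d : A →+ A) (f : A' →+ A) (S' : AddSubgroup A') (S T : AddSubgroup A) : ℕ :=
  (T.map d ⊔ S'.map f).relIndex (S ⊓ d.ker)

lemma Seq6.map_le (h : Seq6 d' d d'' f g S' T' S T S'' T'') : T.map d ≤ S ⊓ d.ker := by
  rintro _ ⟨x, hx, rfl⟩
  exact ⟨h.dTS x hx, h.dd x⟩

/-- `|H(A)| = t s` -/
lemma Seq6.hh_eq (h : Seq6 d' d d'' f g S' T' S T S'' T'') :
    hh d S T = tt d f S' S T * ss d f S' S T := by
  have h1 : T.map d ≤ (S ⊓ d.ker) ⊓ (T.map d ⊔ S'.map f) := le_inf h.map_le le_sup_left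
  rw [hh, ← AddSubgroup.relIndex_mul_relIndex _ _ _ h1 inf_le_left,
    AddSubgroup.inf_relIndex_left]
  rfl

/-- `|H(A'')| = s r` -/
lemma Seq6.hh_eq'' (h : Seq6 d' d d'' f g S' T' S T S'' T'') :
    hh d'' S'' T'' = ss d f S' S T * rr d f S' S := by
  set B := T.map d with hB
  set F := S'.map f with hF
  set Z := S ⊓ d.ker with hZ
  set W := S ⊓ f.range.comap d with hW
  have hFW : F ≤ W := by
    rintro _ ⟨x, hx, rfl⟩
    exact ⟨h.fS x hx, ⟨d' x, h.fd x⟩⟩
  have hZW : Z ≤ W := by
    rintro x ⟨h1, h2⟩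
    refine ⟨h1, ?_⟩
    change d x ∈ f.range
    rw [(AddMonoidHom.mem_ker).1 h2]
    exact zero_mem _
  have hBZ : B ≤ Z := h.map_le
  have e1 : (S'' ⊓ d''.ker) = W.map g := by
    ext y
    constructor
    · rintro ⟨hy, hy'⟩
      obtain ⟨x, hx, rfl⟩ := h.gS' y hy
      refine ⟨x, ⟨hx, ?_⟩, rfl⟩
      change d x ∈ f.range
      obtain ⟨z, hz⟩ := h.ex (d x) (by rw [h.gd]; exact hy')
      exact ⟨z, hz⟩
    · rintro ⟨x, ⟨hx, ⟨z, hz⟩⟩, rfl⟩
      refine ⟨h.gS x hx, ?_⟩
      change d'' (g x) = 0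
      rw [← h.gd, ← hz, h.gf]
  have e2 : (T''.map d'').comap g ⊓ W = B ⊔ F := by
    apply le_antisymm
    · rintro x ⟨⟨y, hy, hyx⟩, hxW⟩
      obtain ⟨t, ht, rfl⟩ := h.gT' y hy
      rw [← h.gd] at hyx
      obtain ⟨z, hz⟩ := h.ex (x - d t) (by rw [map_sub, hyx, sub_self])
      have hzS : z ∈ S' := h.fS' z (by rw [hz]; exact S.sub_mem hxW.1 (h.dTS t ht))
      rw [AddSubgroup.mem_sup]
      exact ⟨d t, ⟨t, ht, rfl⟩, f z, ⟨z, hzS, rfl⟩, by rw [hz]; abel⟩
    · refine sup_le (le_inf ?_ (hBZ.trans hZW)) (le_inf ?_ hFW)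
      · rintro _ ⟨t, ht, rfl⟩
        exact ⟨g t, h.gT t ht, (h.gd t).symm⟩
      · rintro _ ⟨x, hx, rfl⟩
        refine AddSubgroup.mem_comap.2 ?_
        rw [h.gf]
        exact zero_mem _
  have e3 : Z ⊔ (B ⊔ F) = Z ⊔ F := by
    rw [← sup_assoc, sup_eq_left.2 hBZ]
  rw [hh, e1, ← AddSubgroup.relIndex_comap, ← AddSubgroup.inf_relIndex_right, e2,
    ← AddSubgroup.relIndex_mul_relIndex (B ⊔ F) (Z ⊔ F) W (by rw [← e3]; exact le_sup_right)
      (sup_le hZW hFW), ← e3, AddSubgroup.relIndex_sup_right, e3]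
  rfl

/-- `|H(A')| = r t` -/
lemma Seq6.hh_eq' (h : Seq6 d' d d'' f g S' T' S T S'' T'') :
    hh d' S' T' = rr d f T' T * tt d f S' S T := by
  set B := T.map d with hB
  set F := S'.map f with hF
  set Z := S ⊓ d.ker with hZ
  set B' := T'.map d' with hB'
  set Z' := S' ⊓ d'.ker with hZ'
  have hBZ : B ≤ Z := h.map_le
  have e0 : B'.map f ≤ B ⊓ Z'.map f := by
    rintro _ ⟨_, ⟨x, hx, rfl⟩, rfl⟩
    refine ⟨⟨f x, h.fT x hx, (h.fd x).symm⟩, ⟨d' x, ⟨h.dTS' x hx, h.dd' x⟩, rfl⟩⟩
  have e1 : Z'.map f ⊔ B = Z ⊓ (B ⊔ F) := by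
    apply le_antisymm
    · refine sup_le ?_ (le_inf hBZ le_sup_left)
      rintro _ ⟨x, ⟨hx, hx'⟩, rfl⟩
      refine ⟨⟨h.fS x hx, ?_⟩, (le_sup_right : F ≤ B ⊔ F) ⟨x, hx, rfl⟩⟩
      change d (f x) = 0
      rw [← h.fd, (AddMonoidHom.mem_ker).1 hx', map_zero]
    · rintro x ⟨⟨hx1, hx2⟩, hx3⟩
      obtain ⟨_, ⟨t, ht, rfl⟩, _, ⟨z, hz, rfl⟩, rfl⟩ := AddSubgroup.mem_sup.1 hx3
      rw [AddSubgroup.mem_sup]
      refine ⟨f z, ⟨z, ⟨hz, ?_⟩, rfl⟩, d t, ⟨t, ht, rfl⟩, add_comm _ _⟩
      change d' z = 0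
      apply h.inj
      rw [h.fd, map_zero]
      have := (AddMonoidHom.mem_ker).1 hx2
      rwa [map_add, h.dd, zero_add] at this
  have e2 : (T ⊓ f.range.comap d).map d = B ⊓ Z'.map f := by
    ext y
    constructor
    · rintro ⟨x, ⟨hx, ⟨z, hz⟩⟩, rfl⟩
      refine ⟨⟨x, hx, rfl⟩, ⟨z, ⟨?_, ?_⟩, hz⟩⟩
      · apply h.fS'
        rw [hz]
        exact h.dTS x hx
      · change d' z = 0
        apply h.inj
        rw [h.fd, hz, h.dd, map_zero]
    · rintro ⟨⟨x, hx, rfl⟩, ⟨z, hz, hzx⟩⟩
      exact ⟨x, ⟨hx, ⟨z, hzx⟩⟩, rfl⟩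
  have e3 : (B'.map f).comap d ⊓ (T ⊓ f.range.comap d) = (T ⊓ d.ker) ⊔ T'.map f := by
    apply le_antisymm
    · rintro x ⟨⟨_, ⟨t, ht, rfl⟩, hx⟩, hxT, -⟩
      rw [AddSubgroup.mem_sup]
      refine ⟨x - f t, ⟨T.sub_mem hxT (h.fT t ht), ?_⟩, f t, ⟨t, ht, rfl⟩, by abel⟩
      change d (x - f t) = 0
      rw [map_sub, ← hx, h.fd, sub_self]
    · apply sup_le
      · rintro x ⟨hx, hx'⟩
        have h0 : d x = 0 := hx'
        refine ⟨AddSubgroup.mem_comap.2 ?_, hx, AddSubgroup.mem_comap.2 ?_⟩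
        · rw [h0]; exact zero_mem _
        · rw [h0]; exact zero_mem _
      · rintro _ ⟨x, hx, rfl⟩
        exact ⟨⟨d' x, ⟨x, hx, rfl⟩, h.fd x⟩, h.fT x hx, ⟨d' x, h.fd x⟩⟩
  have h1 : hh d' S' T' = (B'.map f).relIndex (Z'.map f) := by
    rw [AddSubgroup.relIndex_map_map_of_injective _ _ h.inj]
    rfl
  have h2 : B.relIndex (Z'.map f) = tt d f S' S T := by
    rw [← AddSubgroup.relIndex_sup_right, e1]
    rfl
  have h3 : (B'.map f).relIndex (B ⊓ Z'.map f) = rr d f T' T := by
    rw [← e2, ← AddSubgroup.relIndex_comap, ← AddSubgroup.inf_relIndex_right, e3]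
    rfl
  rw [h1, ← AddSubgroup.relIndex_mul_relIndex _ _ _ e0 inf_le_right,
    AddSubgroup.inf_relIndex_right, h2, h3]

/-- invariance under quasi-isomorphism -/
lemma hh_qis {B : Type} [AddCommGroup B] {dA : A →+ A} {dB : B →+ B} {φ : A →+ B}
    {S T : AddSubgroup A} {S₁ T₁ : AddSubgroup B} (hφ : ∀ x, φ (dA x) = dB (φ x))
    (hφS : ∀ x ∈ S, φ x ∈ S₁) (hφT : ∀ x ∈ T, φ x ∈ T₁)
    (h1 : ∀ x ∈ S, dA x = 0 → φ x ∈ T₁.map dB → x ∈ T.map dA)
    (h2 : ∀ y ∈ S₁, dB y = 0 → ∃ x ∈ S, dA x = 0 ∧ y - φ x ∈ T₁.map dB)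
    (hTS : ∀ x ∈ T₁, dB x ∈ S₁) (hdd : ∀ x, dB (dB x) = 0) (hdS : ∀ x ∈ T, dA x ∈ S)
    (hddA : ∀ x, dA (dA x) = 0) :
    hh dB S₁ T₁ = hh dA S T := by
  have e1 : (T₁.map dB).comap φ ⊓ (S ⊓ dA.ker) = T.map dA := by
    apply le_antisymm
    · rintro x ⟨hx1, hx2, hx3⟩
      exact h1 x hx2 hx3 hx1
    · rintro _ ⟨x, hx, rfl⟩
      exact ⟨⟨φ x, hφT x hx, (hφ x).symm⟩, hdS x hx, hddA x⟩
  have e2 : (S ⊓ dA.ker).map φ ⊔ T₁.map dB = S₁ ⊓ dB.ker := by
    apply le_antisymm
    · apply sup_le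
      · rintro _ ⟨x, ⟨hx, hx'⟩, rfl⟩
        refine ⟨hφS x hx, ?_⟩
        change dB (φ x) = 0
        rw [← hφ, (AddMonoidHom.mem_ker).1 hx', map_zero]
      · rintro _ ⟨x, hx, rfl⟩
        exact ⟨hTS x hx, hdd x⟩
    · rintro y ⟨hy, hy'⟩
      obtain ⟨x, hx, hx', hyx⟩ := h2 y hy hy'
      exact AddSubgroup.mem_sup.2 ⟨φ x, ⟨x, ⟨hx, hx'⟩, rfl⟩, y - φ x, hyx, by abel⟩
  rw [hh, hh, ← e1, AddSubgroup.inf_relIndex_right, AddSubgroup.relIndex_comap, ← e2,
    AddSubgroup.relIndex_sup_right]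

/-- finiteness passes to direct summands -/
lemma hh_summand {B : Type} [AddCommGroup B] {dA : A →+ A} {dB : B →+ B} {i : A →+ B}
    {r : B →+ A} {S T : AddSubgroup A} {S₁ T₁ : AddSubgroup B} (hi : ∀ x, i (dA x) = dB (i x))
    (hr : ∀ x, r (dB x) = dA (r x)) (hri : ∀ x, r (i x) = x)
    (hiS : ∀ x ∈ S, i x ∈ S₁) (hrT : ∀ x ∈ T₁, r x ∈ T) (h : hh dB S₁ T₁ ≠ 0) :
    hh dA S T ≠ 0 := by
  have e1 : (T₁.map dB).comap i ≤ T.map dA := by
    rintro x ⟨t, ht, htx⟩
    refine ⟨r t, hrT t ht, ?_⟩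
    rw [← hr, htx, hri]
  have e2 : (S ⊓ dA.ker).map i ≤ S₁ ⊓ dB.ker := by
    rintro _ ⟨x, ⟨hx, hx'⟩, rfl⟩
    refine ⟨hiS x hx, ?_⟩
    change dB (i x) = 0
    rw [← hi, (AddMonoidHom.mem_ker).1 hx', map_zero]
  have h3 : (T₁.map dB).relIndex ((S ⊓ dA.ker).map i) ≠ 0 := fun h0 =>
    h (AddSubgroup.relIndex_eq_zero_of_le_right e2 h0)
  rw [← AddSubgroup.relIndex_comap] at h3
  exact fun h0 => h3 (AddSubgroup.relIndex_eq_zero_of_le_left e1 h0)

end count

/-! ### The Euler characteristic -/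

section euler

variable {R : DGRing}

/-- order of the even homology -/
def he (M : DGModule R) : ℕ := hh M.cx.d (M.cx.part Even) (M.cx.part Odd)

/-- order of the odd homology -/
def ho (M : DGModule R) : ℕ := hh M.cx.d (M.cx.part Odd) (M.cx.part Even)

/-- the homology is finite -/
def FinHom (M : DGModule R) : Prop := he M ≠ 0 ∧ ho M ≠ 0

/-- Euler characteristic of the homology (measured by `2`-adic valuations of orders) -/
def chi (M : DGModule R) : ℤ := (padicValNat 2 (he M) : ℤ) - (padicValNat 2 (ho M) : ℤ)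

section

variable {A B : Type} [AddCommGroup A] [AddCommGroup B]

lemma Cx.d_even (X : Cx A) {x : A} (hx : x ∈ X.part Even) : X.d x ∈ X.part Odd := by
  have := X.pr_map X X.d (-1) (fun i x hx => by simpa [sub_eq_add_neg] using X.d_mem hx)
    (P := Even) (Q := Odd) (fun i => by rw [Int.odd_add]; simp [← Int.not_even_iff_odd]) x
  rw [Cx.mem_part] at *
  rw [this, hx]

lemma Cx.d_odd (X : Cx A) {x : A} (hx : x ∈ X.part Odd) : X.d x ∈ X.part Even := by
  have := X.pr_map X X.d (-1) (fun i x hx => by simpa [sub_eq_add_neg] using X.d_mem hx)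
    (P := Odd) (Q := Even) (fun i => by rw [Int.even_add]; simp) x
  rw [Cx.mem_part] at *
  rw [this, hx]

lemma map_pr {X : Cx A} {Y : Cx B} {φ : A →+ B} (h : IsChainMap X Y φ) (P : ℤ → Prop) (a : A) :
    Y.pr P (φ a) = φ (X.pr P a) :=
  X.pr_map Y φ 0 (fun i x hx => by simpa using h.1 i x hx) (fun i => by simp) a

lemma map_part {X : Cx A} {Y : Cx B} {φ : A →+ B} (h : IsChainMap X Y φ) {P : ℤ → Prop} {a : A}
    (ha : a ∈ X.part P) : φ a ∈ Y.part P := by
  rw [Cx.mem_part] at *
  rw [map_pr h, ha]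

end

lemma seq_of_ses {L M N : DGModule R} {f : L.Hom M} {g : M.Hom N} (h : ShortExact f g) :
    Seq6 L.cx.d M.cx.d N.cx.d f.toLinearMap.toAddMonoidHom g.toLinearMap.toAddMonoidHom
      (L.cx.part Even) (L.cx.part Odd) (M.cx.part Even) (M.cx.part Odd)
      (N.cx.part Even) (N.cx.part Odd) := by
  have hinj : Function.Injective f.toLinearMap.toAddMonoidHom := h.1
  have back : ∀ (P : ℤ → Prop) (x : L.carrier),
      f.toLinearMap.toAddMonoidHom x ∈ M.cx.part P → x ∈ L.cx.part P := by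
    intro P x hx
    rw [Cx.mem_part] at *
    rw [map_pr f.chain] at hx
    exact hinj hx
  have lift : ∀ (P : ℤ → Prop) (y : N.carrier), y ∈ N.cx.part P →
      ∃ x ∈ M.cx.part P, g.toLinearMap.toAddMonoidHom x = y := by
    intro P y hy
    obtain ⟨x, hx⟩ := h.2.1 y
    refine ⟨M.cx.pr P x, M.cx.pr_pr P x, ?_⟩
    rw [← map_pr g.chain]
    have : g.toLinearMap.toAddMonoidHom x = y := hx
    rw [this]
    exact hy
  refine ⟨hinj, fun x => ?_, fun y hy => ?_, L.cx.d_d, M.cx.d_d, N.cx.d_d, f.chain.2, g.chain.2,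
    fun x => M.cx.d_even, fun x => M.cx.d_odd, fun x => L.cx.d_even, fun x => L.cx.d_odd,
    fun x => map_part f.chain, fun x => map_part f.chain, back _, back _,
    fun x => map_part g.chain, fun x => map_part g.chain, lift _, lift _⟩
  · have : f.toLinearMap x ∈ LinearMap.ker g.toLinearMap := by
      rw [← h.2.2]
      exact ⟨x, rfl⟩
    exact this
  · have : y ∈ LinearMap.range f.toLinearMap := by
      rw [h.2.2]
      exact hy
    obtain ⟨x, hx⟩ := this
    exact ⟨x, hx⟩

lemma ses_finHom_chi {L M N : DGModule R} {f : L.Hom M} {g : M.Hom N} (h : ShortExact f g) :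
    ((FinHom M → FinHom N → FinHom L) ∧ (FinHom L → FinHom N → FinHom M) ∧
      (FinHom L → FinHom M → FinHom N)) ∧ (FinHom L → FinHom M → FinHom N →
        chi M = chi L + chi N) := by
  have H := seq_of_ses h
  have a1 := H.hh_eq
  have a2 := H.hh_eq'
  have a3 := H.hh_eq''
  have b1 := H.swap.hh_eq
  have b2 := H.swap.hh_eq'
  have b3 := H.swap.hh_eq''
  simp only [FinHom, chi, he, ho]
  rw [a1, a2, a3, b1, b2, b3]
  generalize tt M.cx.d f.toLinearMap.toAddMonoidHom (L.cx.part Even) (M.cx.part Even)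
    (M.cx.part Odd) = te
  generalize tt M.cx.d f.toLinearMap.toAddMonoidHom (L.cx.part Odd) (M.cx.part Odd)
    (M.cx.part Even) = t2
  generalize ss M.cx.d f.toLinearMap.toAddMonoidHom (L.cx.part Even) (M.cx.part Even)
    (M.cx.part Odd) = se
  generalize ss M.cx.d f.toLinearMap.toAddMonoidHom (L.cx.part Odd) (M.cx.part Odd)
    (M.cx.part Even) = so
  generalize rr M.cx.d f.toLinearMap.toAddMonoidHom (L.cx.part Even) (M.cx.part Even) = re
  generalize rr M.cx.d f.toLinearMap.toAddMonoidHom (L.cx.part Odd) (M.cx.part Odd) = ro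
  have : Fact (Nat.Prime 2) := ⟨Nat.prime_two⟩
  refine ⟨⟨?_, ?_, ?_⟩, ?_⟩
  · rintro ⟨h1, h2⟩ ⟨h3, h4⟩
    simp only [ne_eq, mul_eq_zero, not_or] at *
    tauto
  · rintro ⟨h1, h2⟩ ⟨h3, h4⟩
    simp only [ne_eq, mul_eq_zero, not_or] at *
    tauto
  · rintro ⟨h1, h2⟩ ⟨h3, h4⟩
    simp only [ne_eq, mul_eq_zero, not_or] at *
    tauto
  · rintro ⟨h1, h2⟩ ⟨h3, h4⟩ ⟨h5, h6⟩
    simp only [ne_eq, mul_eq_zero, not_or] at *
    rw [padicValNat.mul h3.1 h3.2, padicValNat.mul h4.1 h4.2, padicValNat.mul h1.1 h1.2,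
      padicValNat.mul h2.1 h2.2, padicValNat.mul h5.1 h5.2, padicValNat.mul h6.1 h6.2]
    push_cast
    ring

lemma qis_eq {M N : DGModule R} {f : M.Hom N} (hf : f.QuasiIso) : he N = he M ∧ ho N = ho M := by
  obtain ⟨hc, h1, h2⟩ := hf
  have key : ∀ P Q : ℤ → Prop, (∀ i, Q (i + -1) ↔ P i) → (∀ i, P (i + -1) ↔ Q i) →
      hh N.cx.d (N.cx.part P) (N.cx.part Q) = hh M.cx.d (M.cx.part P) (M.cx.part Q) := by
    intro P Q hPQ hQP
    have dN : ∀ (P Q : ℤ → Prop), (∀ i, Q (i + -1) ↔ P i) → ∀ x, N.cx.pr Q (N.cx.d x) =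
        N.cx.d (N.cx.pr P x) := fun P Q hPQ x =>
      N.cx.pr_map N.cx N.cx.d (-1) (fun i x hx => by simpa [sub_eq_add_neg] using N.cx.d_mem hx)
        hPQ x
    have dM : ∀ (P Q : ℤ → Prop), (∀ i, Q (i + -1) ↔ P i) → ∀ x, M.cx.pr Q (M.cx.d x) =
        M.cx.d (M.cx.pr P x) := fun P Q hPQ x =>
      M.cx.pr_map M.cx M.cx.d (-1) (fun i x hx => by simpa [sub_eq_add_neg] using M.cx.d_mem hx)
        hPQ x
    apply hh_qis (φ := f.toLinearMap.toAddMonoidHom) hc.2 (fun x => map_part hc)
      (fun x => map_part hc)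
    · rintro x hx hdx ⟨t, ht, htx⟩
      obtain ⟨y, hy⟩ := h1 x hdx ⟨t, htx⟩
      refine ⟨M.cx.pr Q y, M.cx.pr_pr Q y, ?_⟩
      rw [← dM Q P hQP, hy]
      exact hx
    · intro y hy hdy
      obtain ⟨x, hx, b, hb⟩ := h2 y hdy
      refine ⟨M.cx.pr P x, M.cx.pr_pr P x, ?_, N.cx.pr Q b, N.cx.pr_pr Q b, ?_⟩
      · rw [← dM P Q hPQ, hx, map_zero]
      · rw [← dN Q P hQP, hb, map_sub, map_pr hc]
        rw [(Cx.mem_part _).1 hy]
    · intro x hx
      rw [Cx.mem_part] at *
      rw [dN Q P hQP, hx]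
    · exact N.cx.d_d
    · intro x hx
      rw [Cx.mem_part] at *
      rw [dM Q P hQP, hx]
    · exact M.cx.d_d
  have o : ∀ i : ℤ, Odd (i + -1) ↔ Even i := fun i => by
    rw [Int.odd_add]; simp [← Int.not_even_iff_odd]
  have e : ∀ i : ℤ, Even (i + -1) ↔ Odd i := fun i => by rw [Int.even_add]; simp
  exact ⟨key Even Odd o e, key Odd Even e o⟩

lemma finHom_summand {M N : DGModule R} (i : M.Hom N) (r : N.Hom M)
    (h : ∀ x, r.toLinearMap (i.toLinearMap x) = x) (hN : FinHom N) : FinHom M :=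
  ⟨hh_summand (i := i.toLinearMap.toAddMonoidHom) (r := r.toLinearMap.toAddMonoidHom) i.chain.2
    r.chain.2 h (fun _ => map_part i.chain) (fun _ => map_part r.chain) hN.1,
   hh_summand (i := i.toLinearMap.toAddMonoidHom) (r := r.toLinearMap.toAddMonoidHom) i.chain.2
    r.chain.2 h (fun _ => map_part i.chain) (fun _ => map_part r.chain) hN.2⟩

lemma finHom_perfect [hR : Finite R.carrier] {M : DGModule R} (hM : Perfect M) : FinHom M := by
  induction hM with
  | self =>
    have : Finite R.self.carrier := hR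
    constructor
    · exact AddSubgroup.index_ne_zero_of_finite
    · exact AddSubgroup.index_ne_zero_of_finite
  | of_qis_left f hf _ ih =>
    have := qis_eq hf
    exact ⟨by rw [this.1]; exact ih.1, by rw [this.2]; exact ih.2⟩
  | of_qis_right f hf _ ih =>
    have := qis_eq hf
    exact ⟨by rw [← this.1]; exact ih.1, by rw [← this.2]; exact ih.2⟩
  | ses_left f g h _ _ ih1 ih2 => exact (ses_finHom_chi h).1.1 ih1 ih2
  | ses_mid f g h _ _ ih1 ih2 => exact (ses_finHom_chi h).1.2.1 ih1 ih2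
  | ses_right f g h _ _ ih1 ih2 => exact (ses_finHom_chi h).1.2.2 ih1 ih2
  | summand i r h _ ih => exact finHom_summand i r h ih

/-- the Euler characteristic as a homomorphism on `K₀` of a finite dga -/
def chiK (R : DGRing) [Finite R.carrier] : KZero R →+ ℤ :=
  QuotientAddGroup.lift _ (FreeAbelianGroup.lift fun M : Perf R => chi M.1) (by
    rw [AddSubgroup.closure_le]
    rintro x (⟨M, N, f, hf, rfl⟩ | ⟨L, M, N, f, g, h, rfl⟩)
    · change FreeAbelianGroup.lift _ _ = (0 : ℤ)
      rw [map_sub, FreeAbelianGroup.lift_apply_of, FreeAbelianGroup.lift_apply_of]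
      have := qis_eq hf
      rw [chi, chi, this.1, this.2, sub_self]
    · change FreeAbelianGroup.lift _ _ = (0 : ℤ)
      rw [map_sub, map_sub, FreeAbelianGroup.lift_apply_of, FreeAbelianGroup.lift_apply_of,
        FreeAbelianGroup.lift_apply_of]
      have := (ses_finHom_chi h).2 (finHom_perfect L.2) (finHom_perfect M.2) (finHom_perfect N.2)
      rw [this]
      ring)

lemma unitClass_ne_zero (R : DGRing) [Finite R.carrier] (h : chi R.self ≠ 0) :
    (1 : ℚ) ⊗ₜ[ℤ] unitClass R ≠ 0 := by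
  intro h0
  have h1 : TensorProduct.rid ℤ ℚ (TensorProduct.map LinearMap.id (chiK R).toIntLinearMap
      ((1 : ℚ) ⊗ₜ[ℤ] unitClass R)) = 0 := by
    rw [h0, map_zero, map_zero]
  rw [TensorProduct.map_tmul, TensorProduct.rid_tmul] at h1
  have h2 : (chiK R) (unitClass R) = chi R.self := by
    exact FreeAbelianGroup.lift_apply_of _ _
  simp only [AddMonoidHom.coe_toIntLinearMap, h2, LinearMap.id_apply] at h1
  rw [zsmul_one] at h1
  exact h (by exact_mod_cast h1)

end euler

/-! ### The obstruction to maps to even rings -/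

section obstruction

/-- the unit is a sum of products whose left factors are odd classes -/
def Obs (A : DGRing) : Prop :=
  ∃ (n : ℕ) (p q : Fin n → ℤ) (x y : Fin n → A.carrier), (∀ l, Odd (p l)) ∧
    (∀ l, x l ∈ A.cx.gr (p l)) ∧ (∀ l, A.cx.d (x l) = 0) ∧ (∀ l, y l ∈ A.cx.gr (q l)) ∧
    (∀ l, A.cx.d (y l) = 0) ∧ ∃ z, A.cx.d z = 1 - ∑ l, x l * y l

lemma d_one (A : DGRing) : A.cx.d 1 = 0 := by
  have := A.leibniz (1 : A.carrier) A.one_mem
  simpa using this

lemma Cx.d_pr_single {A : Type} [AddCommGroup A] (X : Cx A) (k : ℤ) (a : A) :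
    X.d (X.pr (fun j => j = k + 1) a) = X.pr (fun j => j = k) (X.d a) := by
  symm
  apply X.pr_map X X.d (-1) (fun i x hx => by simpa [sub_eq_add_neg] using X.d_mem hx)
  intro i
  constructor <;> intro h <;> omega

lemma Cx.exists_homogeneous {A : Type} [AddCommGroup A] (X : Cx A) {k : ℤ} {x : A}
    (hx : x ∈ X.gr k) (h : ∃ y, X.d y = x) : ∃ y ∈ X.gr (k + 1), X.d y = x := by
  obtain ⟨y, rfl⟩ := h
  refine ⟨X.pr (fun j => j = k + 1) y, X.pr_single_mem _ _, ?_⟩
  rw [X.d_pr_single, X.pr_mem (P := fun j => j = k) rfl hx]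

lemma Obs.forward {R S : DGRing} (f : DGRing.Hom R S) (h : Obs R) : Obs S := by
  obtain ⟨n, p, q, x, y, hp, hx, hdx, hy, hdy, z, hz⟩ := h
  have hd : ∀ a, S.cx.d (f.toRingHom a) = f.toRingHom (R.cx.d a) := fun a => (f.chain.2 a).symm
  refine ⟨n, p, q, fun l => f.toRingHom (x l), fun l => f.toRingHom (y l), hp,
    fun l => f.chain.1 _ _ (hx l), fun l => ?_, fun l => f.chain.1 _ _ (hy l), fun l => ?_,
    f.toRingHom z, ?_⟩
  · rw [hd, hdx, map_zero]
  · rw [hd, hdy, map_zero]
  · rw [hd, hz, map_sub, map_one, map_sum]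
    simp only [map_mul]

lemma lift_cycle {A B : Type} [AddCommGroup A] [AddCommGroup B] {X : Cx A} {Y : Cx B}
    {f : A →+ B} (hf : IsQuasiIso X Y f) {k : ℤ} {b : B} (hb : b ∈ Y.gr k) (hdb : Y.d b = 0) :
    ∃ a ∈ X.gr k, X.d a = 0 ∧ ∃ c ∈ Y.gr (k + 1), Y.d c = b - f a := by
  obtain ⟨a, ha, c, hc⟩ := hf.2.2 b hdb
  refine ⟨X.pr (fun j => j = k) a, X.pr_single_mem _ _, ?_, ?_⟩
  · have e := X.d_pr_single (k - 1) a
    rw [ha, map_zero] at e
    simpa using e
  · apply Y.exists_homogeneous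
    · refine (Y.gr k).sub_mem hb ?_
      rw [← map_pr hf.1]
      exact Y.pr_single_mem _ _
    · refine ⟨Y.pr (fun j => j = k + 1) c, ?_⟩
      rw [Y.d_pr_single, hc, map_sub, Y.pr_mem (P := fun j => j = k) rfl hb, map_pr hf.1]

lemma Obs.backward {R S : DGRing} (f : DGRing.Hom S R)
    (hf : IsQuasiIso S.cx R.cx f.toRingHom.toAddMonoidHom) (h : Obs R) : Obs S := by
  obtain ⟨n, p, q, x, y, hp, hx, hdx, hy, hdy, z, hz⟩ := h
  choose a ha hda b hb hdb using fun l => lift_cycle hf (hx l) (hdx l)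
  choose c hc hdc e he hde using fun l => lift_cycle hf (hy l) (hdy l)
  have hd : ∀ a, R.cx.d (f.toRingHom a) = f.toRingHom (S.cx.d a) := fun a => (f.chain.2 a).symm
  refine ⟨n, p, q, a, c, hp, ha, hda, hc, hdc, ?_⟩
  apply hf.2.1
  · rw [map_sub, d_one, map_sum]
    have : ∀ l, S.cx.d (a l * c l) = 0 := by
      intro l
      rw [S.leibniz _ (ha l), hda, hdc, zero_mul, mul_zero, smul_zero, add_zero]
    simp [this]
  · -- the difference of the products is a boundary
    have key : ∀ l, ∃ v, R.cx.d v = x l * y l - f.toRingHom (a l) * f.toRingHom (c l) := by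
      intro l
      refine ⟨b l * y l + (p l).negOnePow • (f.toRingHom (a l) * e l), ?_⟩
      have h1 : R.cx.d (b l * y l) = (x l - f.toRingHom (a l)) * y l := by
        rw [R.leibniz _ (hb l), hdy, mul_zero, smul_zero, add_zero, hdb]
        rfl
      have h2 : R.cx.d (f.toRingHom (a l) * e l) =
          (p l).negOnePow • (f.toRingHom (a l) * (y l - f.toRingHom (c l))) := by
        have ha' : f.toRingHom (a l) ∈ R.cx.gr (p l) := f.chain.1 _ _ (ha l)
        rw [R.leibniz _ ha', hd, hda, map_zero, zero_mul, zero_add, hde]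
        rfl
      have h3 : ∀ (u : ℤˣ) (v : R.carrier), R.cx.d (u • v) = u • R.cx.d v := by
        intro u v
        rcases Int.units_eq_one_or u with rfl | rfl <;> simp
      rw [map_add, h1, h3, h2, smul_smul, Int.units_mul_self, one_smul]
      noncomm_ring
    choose v hv using key
    refine ⟨z + ∑ l, v l, ?_⟩
    change _ = f.toRingHom _
    rw [map_add, hz, map_sum, map_sub, map_one, map_sum]
    simp only [hv, map_mul, Finset.sum_sub_distrib]
    abel

lemma Obs.derived {R S : DGRing} (h : DerivedMap R S) : Obs R → Obs S := by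
  induction h with
  | forward f => exact Obs.forward f
  | backward f hf => exact Obs.backward f hf
  | trans _ _ ih1 ih2 => exact fun h => ih2 (ih1 h)

lemma Obs.acyclic {A : DGRing} (h : Obs A) (hA : A.IsEven) : A.IsAcyclic := by
  obtain ⟨n, p, q, x, y, hp, hx, hdx, hy, hdy, z, hz⟩ := h
  have : ∀ l, ∃ u ∈ A.cx.gr (p l + 1), A.cx.d u = x l := fun l =>
    A.cx.exists_homogeneous (hx l) (hA (p l) (hp l) (x l) (hx l) (hdx l))
  choose u hu hdu using this
  have h1 : ∃ v, A.cx.d v = 1 := by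
    refine ⟨z + ∑ l, u l * y l, ?_⟩
    rw [map_add, hz, map_sum]
    have : ∀ l, A.cx.d (u l * y l) = x l * y l := by
      intro l
      rw [A.leibniz _ (hu l), hdu, hdy, mul_zero, smul_zero, add_zero]
    simp [this]
  obtain ⟨v, hv, hdv⟩ := A.cx.exists_homogeneous A.one_mem h1
  intro c hc
  refine ⟨v * c, ?_⟩
  rw [A.leibniz _ hv, hdv, hc, mul_zero, smul_zero, add_zero, one_mul]

end obstruction

/-! ### The example -/

section example0

lemma isInternal_of_proj {A : Type} [AddCommGroup A] (gr : ℤ → AddSubgroup A)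
    (π : ℤ → A →+ A) (s : Finset ℤ) (h1 : ∀ k x, π k x ∈ gr k) (h2 : ∀ k, ∀ x ∈ gr k, π k x = x)
    (h3 : ∀ k l, k ≠ l → ∀ x ∈ gr k, π l x = 0) (h4 : ∀ x, ∑ k ∈ s, π k x = x) :
    DirectSum.IsInternal gr := by
  have key : ∀ (y : DirectSum ℤ fun i => gr i) (k : ℤ),
      π k (DirectSum.coeAddMonoidHom gr y) = (y k : A) := by
    intro y k
    have : (π k).comp (DirectSum.coeAddMonoidHom gr) =
        (gr k).subtype.comp (DFinsupp.evalAddMonoidHom k) := by
      apply DirectSum.addHom_ext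
      intro i x
      simp only [AddMonoidHom.coe_comp, Function.comp_apply]
      rw [DirectSum.coeAddMonoidHom_of]
      by_cases h : i = k
      · subst h
        rw [h2 i _ x.2]
        change (x : A) = ((DirectSum.of (fun i => gr i) i x) i : A)
        rw [DirectSum.of_eq_same]
      · rw [h3 i k h _ x.2]
        change (0 : A) = ((DirectSum.of (fun i => gr i) i x) k : A)
        rw [DirectSum.of_eq_of_ne _ _ _ (Ne.symm h)]
        rfl
    exact DFunLike.congr_fun this y
  constructor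
  · intro y z hyz
    apply DFinsupp.ext
    intro k
    apply Subtype.ext
    rw [← key, ← key, hyz]
  · intro x
    refine ⟨∑ k ∈ s, DirectSum.of (fun i => gr i) k ⟨π k x, h1 k x⟩, ?_⟩
    rw [map_sum]
    simp only [DirectSum.coeAddMonoidHom_of]
    exact h4 x

/-- the degrees of the basis of the graded vector space `k ⊕ k ⊕ Σk` -/
def w : Fin 3 → ℤ := ![0, 0, 1]

/-- `3 × 3` matrices over `𝔽₂` -/
abbrev Mat : Type := Matrix (Fin 3) (Fin 3) (ZMod 2)

/-- the matrices of degree `k`: the entry `(i, j)` has degree `w i - w j` -/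
def matGr (k : ℤ) : AddSubgroup Mat where
  carrier := {a | ∀ i j, w i - w j ≠ k → a i j = 0}
  zero_mem' := fun i j _ => rfl
  add_mem' := fun {a b} ha hb i j h => by
    rw [Matrix.add_apply, ha i j h, hb i j h, add_zero]
  neg_mem' := fun {a} ha i j h => by
    rw [Matrix.neg_apply, ha i j h, neg_zero]

/-- keep the entries of degree `k` -/
def matPr (k : ℤ) : Mat →+ Mat where
  toFun a := fun i j => if w i - w j = k then a i j else 0
  map_zero' := by
    ext i j
    simp
  map_add' a b := by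
    ext i j
    change (if w i - w j = k then a i j + b i j else 0) =
      (if w i - w j = k then a i j else 0) + (if w i - w j = k then b i j else 0)
    split_ifs <;> simp

lemma matGr_internal : DirectSum.IsInternal matGr := by
  apply isInternal_of_proj matGr matPr {-1, 0, 1}
  · intro k x i j h
    exact if_neg h
  · intro k x hx
    ext i j
    by_cases h : w i - w j = k
    · exact if_pos h
    · rw [hx i j h]
      exact if_neg h
  · intro k l hkl x hx
    ext i j
    by_cases h : w i - w j = l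
    · rw [Matrix.zero_apply, ← hx i j (by rw [h]; exact hkl.symm)]
      exact if_pos h
    · exact if_neg h
  · intro x
    ext i j
    rw [Matrix.sum_apply]
    change ∑ k ∈ ({-1, 0, 1} : Finset ℤ), (if w i - w j = k then x i j else 0) = x i j
    fin_cases i <;> fin_cases j <;> simp [w]

/-- The differential graded ring `End(k ⊕ k ⊕ Σk)`, `k = 𝔽₂`, with zero differential. -/
def endRing : DGRing where
  carrier := Mat
  cx :=
    { gr := matGr
      internal := matGr_internal
      d := 0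
      d_mem := fun _ => zero_mem _
      d_d := fun _ => rfl }
  one_mem := by
    intro i j h
    rw [Matrix.one_apply_ne]
    rintro rfl
    exact h (sub_self _)
  mul_mem := by
    intro k l a b ha hb i j h
    rw [Matrix.mul_apply]
    apply Finset.sum_eq_zero
    intro m _
    by_cases h1 : w i - w m = k
    · by_cases h2 : w m - w j = l
      · exact absurd (by rw [← h1, ← h2]; ring) h
      · rw [hb m j h2, mul_zero]
    · rw [ha i m h1, zero_mul]
  leibniz := by
    intro i x y _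
    simp

lemma endRing_pr (P : ℤ → Prop) [DecidablePred P] (a : Mat) :
    endRing.cx.pr P a = fun i j => if P (w i - w j) then a i j else 0 := by
  let ψ : Mat →+ Mat :=
    { toFun := fun a i j => if P (w i - w j) then a i j else 0
      map_zero' := by ext i j; simp
      map_add' := fun a b => by
        ext i j
        change (if P (w i - w j) then a i j + b i j else 0) =
          (if P (w i - w j) then a i j else 0) + (if P (w i - w j) then b i j else 0)
        split_ifs <;> simp }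
  have : endRing.cx.pr P = ψ := by
    apply endRing.cx.ext_hom
    intro k x hx
    by_cases h : P k
    · rw [Cx.pr_mem _ h hx]
      refine Matrix.ext fun i j => ?_
      change x i j = if P (w i - w j) then x i j else 0
      split_ifs with h1
      · rfl
      · exact hx i j (fun h2 => h1 (h2 ▸ h))
    · rw [Cx.pr_not_mem _ h hx]
      refine Matrix.ext fun i j => ?_
      change 0 = if P (w i - w j) then x i j else 0
      split_ifs with h1
      · exact (hx i j (fun h2 => h (h2 ▸ h1))).symm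
      · rfl
  exact DFunLike.congr_fun this a

lemma endRing_part (P : ℤ → Prop) [DecidablePred P] (a : Mat) :
    a ∈ endRing.cx.part P ↔ ∀ i j, ¬ P (w i - w j) → a i j = 0 := by
  have e := endRing_pr P a
  constructor
  · intro h i j hij
    have h' : endRing.cx.pr P a = a := h
    rw [e] at h'
    have h2 : (if P (w i - w j) then a i j else 0) = a i j := congrFun (congrFun h' i) j
    rw [if_neg hij] at h2
    exact h2.symm
  · intro h
    refine e.trans (Matrix.ext fun i j => ?_)
    split_ifs with h1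
    · rfl
    · exact (h i j h1).symm

lemma card_even : Fintype.card {a : Fin 3 → Fin 3 → ZMod 2 //
    ∀ i j, ¬ Even (w i - w j) → a i j = 0} = 2 ^ 5 := by
  decide +kernel

lemma card_odd : Fintype.card {a : Fin 3 → Fin 3 → ZMod 2 //
    ∀ i j, ¬ Odd (w i - w j) → a i j = 0} = 2 ^ 4 := by
  decide +kernel

lemma chi_endRing : chi endRing.self = 1 := by
  have h1 : ∀ S T : AddSubgroup Mat, hh (0 : Mat →+ Mat) S T = Nat.card S := by
    intro S T
    have e1 : T.map (0 : Mat →+ Mat) = ⊥ := by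
      rw [eq_bot_iff]
      rintro _ ⟨x, _, rfl⟩
      exact zero_mem _
    have e2 : S ⊓ (0 : Mat →+ Mat).ker = S := inf_eq_left.2 (fun x _ => rfl)
    rw [hh, e1, e2, AddSubgroup.relIndex_bot_left]
  have h2 : he endRing.self = 2 ^ 5 := by
    refine (h1 (endRing.cx.part Even) (endRing.cx.part Odd)).trans ?_
    rw [← card_even, ← Nat.card_eq_fintype_card]
    exact Nat.card_congr (Equiv.subtypeEquivRight (endRing_part Even))
  have h3 : ho endRing.self = 2 ^ 4 := by
    refine (h1 (endRing.cx.part Odd) (endRing.cx.part Even)).trans ?_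
    rw [← card_odd, ← Nat.card_eq_fintype_card]
    exact Nat.card_congr (Equiv.subtypeEquivRight (endRing_part Odd))
  have : Fact (Nat.Prime 2) := ⟨Nat.prime_two⟩
  rw [chi, h2, h3, padicValNat.prime_pow, padicValNat.prime_pow]
  norm_num

/-- matrix units -/
def E (i j : Fin 3) : Mat := Matrix.single i j 1

lemma E_mem (i j : Fin 3) : E i j ∈ matGr (w i - w j) := by
  intro k l h
  apply Matrix.single_apply_of_ne
  rintro ⟨rfl, rfl⟩
  exact h rfl

lemma one_eq : (1 : Mat) = E 0 2 * E 2 0 + E 1 2 * E 2 1 + E 2 0 * E 0 2 := by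
  decide +kernel

lemma obs_endRing : Obs endRing := by
  refine ⟨3, ![-1, -1, 1], ![1, 1, -1], ![E 0 2, E 1 2, E 2 0], ![E 2 0, E 2 1, E 0 2],
    ?_, ?_, fun _ => rfl, ?_, fun _ => rfl, (0 : Mat), ?_⟩
  · intro l
    fin_cases l <;> simp
  · intro l
    fin_cases l
    · exact E_mem 0 2
    · exact E_mem 1 2
    · exact E_mem 2 0
  · intro l
    fin_cases l
    · exact E_mem 2 0
    · exact E_mem 2 1
    · exact E_mem 0 2
  · have h : (1 : Mat) = ∑ l : Fin 3, (![E 0 2, E 1 2, E 2 0] : Fin 3 → Mat) l *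
        (![E 2 0, E 2 1, E 0 2] : Fin 3 → Mat) l := by
      rw [one_eq, Fin.sum_univ_three]
      rfl
    change (0 : Mat) = 1 - ∑ l : Fin 3, (![E 0 2, E 1 2, E 2 0] : Fin 3 → Mat) l *
        (![E 2 0, E 2 1, E 0 2] : Fin 3 → Mat) l
    rw [← h, sub_self]

end example0

/-- **Negative answer.** There is a differential graded ring `R` (an `E₁`-`ℤ`-algebra), with zero
differential, such that

* the unit `[R]` is nonzero in `K₀(R) ⊗ ℚ`;
* every homomorphism of graded rings from `R = H_*(R) = π_*(R)` to a graded ring `B` that vanishes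
  in odd degrees has `B = 0`;
* every even differential graded ring which receives a morphism from `R` in the homotopy category
  of differential graded rings is quasi-isomorphic to `0`. -/
theorem result.{u} : ∃ R : DGRing,
    R.cx.d = 0 ∧
    (1 : ℚ) ⊗ₜ[ℤ] unitClass R ≠ 0 ∧
    (∀ (B : Type u) [Ring B] (gr : ℤ → AddSubgroup B) [GradedRing gr],
      (∀ k : ℤ, Odd k → gr k = ⊥) →
      ∀ φ : R.carrier →+* B, (∀ k, ∀ x ∈ R.cx.gr k, φ x ∈ gr k) → Subsingleton B) ∧
    (∀ A : DGRing, A.IsEven → DerivedMap R A → A.IsAcyclic) := by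
  refine ⟨endRing, rfl, ?_, ?_, ?_⟩
  · have : Finite endRing.carrier := (inferInstance : Finite Mat)
    apply unitClass_ne_zero
    rw [chi_endRing]
    exact one_ne_zero
  · intro B _ gr _ hB φ hφ
    have hodd : ∀ i j : Fin 3, Odd (w i - w j) → φ (E i j) = 0 := by
      intro i j h
      have h1 : φ (E i j) ∈ gr (w i - w j) := hφ _ _ (E_mem i j)
      rw [hB _ h] at h1
      exact h1
    have h0 : (1 : B) = 0 := by
      rw [← map_one φ]
      change φ (1 : Mat) = 0
      rw [one_eq]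
      have e1 := hodd 0 2 (by simp [w])
      have e2 := hodd 1 2 (by simp [w])
      have e3 := hodd 2 0 (by simp [w])
      have m : ∀ a b : Mat, φ (a * b) = φ a * φ b := map_mul φ
      have n : ∀ a b : Mat, φ (a + b) = φ a + φ b := map_add φ
      rw [n, n, m, m, m, e1, e2, e3]
      simp only [zero_mul, add_zero]
    exact subsingleton_of_zero_eq_one h0.symm
  · intro A hA h
    exact (Obs.derived h obs_endRing).acyclic hA

end

end Pool.Agent.Results.MP_b9a9ca_gt.NoEvenTarget
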